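import Pool.Agent.H649.BipRad

namespace Pool.Agent.Results.MP_0d366e_co.BipartiteAdditive

open scoped BigOperators

/-- `path(G)`: the largest number of vertices of an induced path. -/
noncomputable def pathNum {V : Type*} (G : SimpleGraph V) : ℕ :=
  sSup {k : ℕ | Nonempty (SimpleGraph.pathGraph k ↪g G)}

/-- `l(v)`: the independence number of the subgraph induced on the open neighbourhood of `v`. -/
noncomputable def locInd {V : Type*} (G : SimpleGraph V) (v : V) : ℕ :=
  (G.induce (G.neighborSet v)).indepNum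

/-- `l(G)`: the average of `l(v)`. -/
noncomputable def avgInd {V : Type*} [Fintype V] (G : SimpleGraph V) : ℝ :=
  (∑ v, (locInd G v : ℝ)) / (Fintype.card V : ℝ)

/-- the eccentricity of `v` -/
noncomputable def ecc {V : Type*} [Fintype V] (G : SimpleGraph V) (v : V) : ℕ :=
  Finset.univ.sup (fun u => G.dist v u)

/-- the radius -/
noncomputable def rad {V : Type*} [Fintype V] (G : SimpleGraph V) : ℕ :=
  sInf (Set.range (ecc G))

/-- `G` contains a 4-cycle as a (not necessarily induced) subgraph. -/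
def HasC4 {V : Type*} (G : SimpleGraph V) : Prop :=
  ∃ a b c d : V, [a, b, c, d].Nodup ∧ G.Adj a b ∧ G.Adj b c ∧ G.Adj c d ∧ G.Adj d a

theorem result {V : Type*} [Fintype V] (G : SimpleGraph V) (hG : G.Connected)
    (hbip : G.Colorable 2) (h4 : ¬ HasC4 G) :
    (rad G : ℤ) + ⌊avgInd G⌋ ≤ (pathNum G : ℤ) + 3 := by
  classical
  have hne : Nonempty V := hG.nonempty
  have hcard : 0 < Fintype.card V := Fintype.card_pos
  -- from `IP` to `pathNum`
  have hbdd : BddAbove {k : ℕ | Nonempty (SimpleGraph.pathGraph k ↪g G)} := by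
    refine ⟨Fintype.card V, ?_⟩
    rintro k ⟨e⟩
    simpa using Fintype.card_le_of_injective e e.injective
  have hIP : ∀ (f : ℕ → V) (k : ℕ), H649.InducedPath.IP G f k → k ≤ pathNum G := by
    intro f k hf
    refine le_csSup hbdd ⟨⟨⟨fun i => f i, ?_⟩, ?_⟩⟩
    · intro i j hij
      exact Fin.ext (hf.1 i i.2 j j.2 hij)
    · intro i j
      simp only [SimpleGraph.pathGraph_adj]
      exact hf.2 i i.2 j j.2
  have hC : H649.InducedPath.C4Free G := by
    intro a b c d hac hbd h1 h2 h3 h5
    apply h4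
    refine ⟨a, b, c, d, ?_, h1, h2, h3, h5⟩
    simp [hac, hbd, h1.ne, h2.ne, h3.ne, h5.ne']
  obtain ⟨col⟩ := hbip
  have hc : ∀ u v, G.Adj u v → (decide (col u = 0)) ≠ (decide (col v = 0)) := by
    intro u v huv
    have h := col.valid huv
    revert h
    generalize col u = a
    generalize col v = b
    revert a b
    decide
  have hnn : 0 ≤ avgInd G := by
    unfold avgInd
    positivity
  obtain ⟨L, hLe⟩ := Int.eq_ofNat_of_zero_le (Int.floor_nonneg.2 hnn)
  have hloc : ∀ v, locInd G v ≤ H649.InducedPath.dS G (Finset.univ : Finset V) v := by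
    intro v
    obtain ⟨s, hs⟩ := (G.induce (G.neighborSet v)).exists_isNIndepSet_indepNum
    have h1 : (s.map (Function.Embedding.subtype _)).card = locInd G v := by
      rw [Finset.card_map, hs.card_eq]
      rfl
    rw [← h1]
    unfold H649.InducedPath.dS
    apply Finset.card_le_card
    intro w hw
    rw [Finset.mem_map] at hw
    obtain ⟨x, -, rfl⟩ := hw
    rw [Finset.mem_filter]
    exact ⟨Finset.mem_univ _, x.2⟩
  have hsum : L * Fintype.card V ≤ H649.InducedPath.mS G (Finset.univ : Finset V) := by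
    have h1 : (L : ℝ) ≤ avgInd G := by
      have := Int.floor_le (avgInd G)
      rw [hLe] at this
      exact_mod_cast this
    have h2 : (L : ℝ) * (Fintype.card V : ℝ) ≤ ∑ v, (locInd G v : ℝ) := by
      unfold avgInd at h1
      rwa [le_div_iff₀ (by exact_mod_cast hcard)] at h1
    have h3 : L * Fintype.card V ≤ ∑ v, locInd G v := by exact_mod_cast h2
    refine h3.trans ?_
    unfold H649.InducedPath.mS
    exact Finset.sum_le_sum (fun v _ => hloc v)
  have hrad : ∀ u : V, ∃ v, rad G ≤ G.dist v u := by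
    intro u
    obtain ⟨v, -, hv⟩ := Finset.exists_mem_eq_sup (Finset.univ : Finset V) ⟨u, Finset.mem_univ u⟩
      (fun v => G.dist u v)
    refine ⟨v, ?_⟩
    rw [SimpleGraph.dist_comm, ← hv]
    exact Nat.sInf_le ⟨u, rfl⟩
  have hr1 : rad G + 1 ≤ pathNum G := by
    obtain ⟨u⟩ := hne
    obtain ⟨v, huv⟩ := hrad u
    obtain ⟨g, -, -, hg⟩ := H649.InducedPath.exists_geo hG v u
    have h1 := hIP g _ (H649.InducedPath.geo_IP hg)
    omega
  have hmain : rad G + L ≤ pathNum G + 3 := by
    by_cases hL : 2 ≤ L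
    · obtain ⟨S, s1, s2, s3, s4, s5⟩ := H649.InducedPath.exists_core' (G := G) hL hsum
      by_cases hr : 2 ≤ rad G
      · obtain ⟨z0, hz0⟩ := s1
        obtain ⟨q, hq⟩ := hrad z0
        obtain ⟨f, k, hk, hf⟩ := H649.InducedPath.bipRad hG hc hC s2 q z0 hz0 (by omega)
        have := hIP f k hf
        omega
      · obtain ⟨f, k, hk, hf⟩ := H649.InducedPath.bip3 hc hC hL s1 s2 s3
        have := hIP f k hf
        omega
    · omega
  rw [hLe]
  exact_mod_cast hmain

end Pool.Agent.Results.MP_0d366e_co.BipartiteAdditive
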