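import Pool.Agent.H649.BipFour

namespace Pool.Agent.Results.MP_0d366e_co.BipartiteRadiusFour

open scoped BigOperators

/-- `path(G)`: the largest number of vertices of an induced path. -/
noncomputable def pathNum {V : Type*} (G : SimpleGraph V) : ℕ :=
  sSup {k : ℕ | Nonempty (SimpleGraph.pathGraph k ↪g G)}

/-- `l(v)`: the independence number of the subgraph induced on the open neighbourhood of `v`. -/
noncomputable def locInd {V : Type*} (G : SimpleGraph V) (v : V) : ℕ :=
  (G.induce (G.neighborSet v)).indepNum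

/-- `l(G)`: the average of `l(v)`. -/
noncomputable def avgInd {V : Type*} [Fintype V] (G : SimpleGraph V) : ℝ :=
  (∑ v, (locInd G v : ℝ)) / (Fintype.card V : ℝ)

/-- the eccentricity of `v` -/
noncomputable def ecc {V : Type*} [Fintype V] (G : SimpleGraph V) (v : V) : ℕ :=
  Finset.univ.sup (fun u => G.dist v u)

/-- the radius -/
noncomputable def rad {V : Type*} [Fintype V] (G : SimpleGraph V) : ℕ :=
  sInf (Set.range (ecc G))

/-- `G` contains a 4-cycle as a (not necessarily induced) subgraph. -/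
def HasC4 {V : Type*} (G : SimpleGraph V) : Prop :=
  ∃ a b c d : V, [a, b, c, d].Nodup ∧ G.Adj a b ∧ G.Adj b c ∧ G.Adj c d ∧ G.Adj d a

open Classical in
/-- `cC₄(G)` -/
noncomputable def cC4 {V : Type*} (G : SimpleGraph V) : ℕ := if HasC4 G then 0 else 1

theorem result {V : Type*} [Fintype V] (G : SimpleGraph V) (hG : G.Connected)
    (hbip : G.Colorable 2) :
    (¬ HasC4 G → 2 ≤ ⌊avgInd G⌋ → ⌊avgInd G⌋ + 3 ≤ (pathNum G : ℤ)) ∧
    (¬ HasC4 G → 3 ≤ ⌊avgInd G⌋ → ⌊avgInd G⌋ + 4 ≤ (pathNum G : ℤ)) ∧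
    ((rad G ≤ 3 ∨ (rad G ≤ 4 ∧ 3 ≤ ⌊avgInd G⌋)) →
      (rad G : ℝ) + (⌊avgInd G⌋ : ℝ) ^ (cC4 G) ≤ (pathNum G : ℝ)) := by
  classical
  have hne : Nonempty V := hG.nonempty
  have hcard : 0 < Fintype.card V := Fintype.card_pos
  -- from `IP` to `pathNum`
  have hbdd : BddAbove {k : ℕ | Nonempty (SimpleGraph.pathGraph k ↪g G)} := by
    refine ⟨Fintype.card V, ?_⟩
    rintro k ⟨e⟩
    simpa using Fintype.card_le_of_injective e e.injective
  have hIP : ∀ (f : ℕ → V) (k : ℕ), H649.InducedPath.IP G f k → k ≤ pathNum G := by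
    intro f k hf
    refine le_csSup hbdd ⟨⟨⟨fun i => f i, ?_⟩, ?_⟩⟩
    · intro i j hij
      exact Fin.ext (hf.1 i i.2 j j.2 hij)
    · intro i j
      simp only [SimpleGraph.pathGraph_adj]
      exact hf.2 i i.2 j j.2
  have hC : ¬ HasC4 G → H649.InducedPath.C4Free G := by
    intro h a b c d hac hbd h1 h2 h3 h4
    apply h
    refine ⟨a, b, c, d, ?_, h1, h2, h3, h4⟩
    simp [hac, hbd, h1.ne, h2.ne, h3.ne, h4.ne']
  obtain ⟨col⟩ := hbip
  have hc : ∀ u v, G.Adj u v → (decide (col u = 0)) ≠ (decide (col v = 0)) := by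
    intro u v huv
    have h := col.valid huv
    revert h
    generalize col u = a
    generalize col v = b
    revert a b
    decide
  have hnn : 0 ≤ avgInd G := by
    unfold avgInd
    positivity
  obtain ⟨L, hLe⟩ := Int.eq_ofNat_of_zero_le (Int.floor_nonneg.2 hnn)
  have hloc : ∀ v, locInd G v ≤ H649.InducedPath.dS G (Finset.univ : Finset V) v := by
    intro v
    obtain ⟨s, hs⟩ := (G.induce (G.neighborSet v)).exists_isNIndepSet_indepNum
    have h1 : (s.map (Function.Embedding.subtype _)).card = locInd G v := by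
      rw [Finset.card_map, hs.card_eq]
      rfl
    rw [← h1]
    unfold H649.InducedPath.dS
    apply Finset.card_le_card
    intro w hw
    rw [Finset.mem_map] at hw
    obtain ⟨x, -, rfl⟩ := hw
    rw [Finset.mem_filter]
    exact ⟨Finset.mem_univ _, x.2⟩
  have hsum : L * Fintype.card V ≤ H649.InducedPath.mS G (Finset.univ : Finset V) := by
    have h1 : (L : ℝ) ≤ avgInd G := by
      have := Int.floor_le (avgInd G)
      rw [hLe] at this
      exact_mod_cast this
    have h2 : (L : ℝ) * (Fintype.card V : ℝ) ≤ ∑ v, (locInd G v : ℝ) := by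
      unfold avgInd at h1
      rwa [le_div_iff₀ (by exact_mod_cast hcard)] at h1
    have h3 : L * Fintype.card V ≤ ∑ v, locInd G v := by exact_mod_cast h2
    refine h3.trans ?_
    unfold H649.InducedPath.mS
    exact Finset.sum_le_sum (fun v _ => hloc v)
  have k3 : ¬ HasC4 G → 2 ≤ L → L + 3 ≤ pathNum G := by
    intro h hL
    obtain ⟨S, s1, s2, s3, s4, s5⟩ := H649.InducedPath.exists_core' (G := G) hL hsum
    obtain ⟨f, k, hk, hf⟩ := H649.InducedPath.bip3 hc (hC h) hL s1 s2 s3
    exact hk.trans (hIP f k hf)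
  have k4 : ¬ HasC4 G → 3 ≤ L → L + 4 ≤ pathNum G := by
    intro h hL
    obtain ⟨S, s1, s2, s3, s4, s5⟩ := H649.InducedPath.exists_core' (G := G) (by omega) hsum
    obtain ⟨f, k, hk, hf⟩ := H649.InducedPath.bip4 hc (hC h) hL s1 s2 s3 s4 s5
    exact hk.trans (hIP f k hf)
  have hrad : ∃ u v, rad G ≤ G.dist u v := by
    obtain ⟨u⟩ := hne
    obtain ⟨v, -, hv⟩ := Finset.exists_mem_eq_sup (Finset.univ : Finset V) ⟨u, Finset.mem_univ u⟩
      (fun v => G.dist u v)
    refine ⟨u, v, ?_⟩
    rw [← hv]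
    exact Nat.sInf_le ⟨u, rfl⟩
  have hr1 : rad G + 1 ≤ pathNum G := by
    obtain ⟨u, v, huv⟩ := hrad
    obtain ⟨g, -, -, hg⟩ := H649.InducedPath.exists_geo hG u v
    have h1 := hIP g _ (H649.InducedPath.geo_IP hg)
    omega
  rw [hLe]
  refine ⟨?_, ?_, ?_⟩
  · intro h h2
    have := k3 h (by exact_mod_cast h2)
    exact_mod_cast this
  · intro h h2
    have := k4 h (by exact_mod_cast h2)
    exact_mod_cast this
  · intro hr
    by_cases h : HasC4 G
    · have e : cC4 G = 0 := by simp [cC4, h]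
      rw [e, pow_zero]
      exact_mod_cast hr1
    · have e : cC4 G = 1 := by simp [cC4, h]
      rw [e, pow_one]
      have hmain : rad G + L ≤ pathNum G := by
        rcases hr with hr | ⟨hr, hL3⟩
        · by_cases hL : 2 ≤ L
          · have := k3 h hL
            omega
          · omega
        · have hL3' : 3 ≤ L := by exact_mod_cast hL3
          have := k4 h hL3'
          omega
      exact_mod_cast hmain

end Pool.Agent.Results.MP_0d366e_co.BipartiteRadiusFour
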