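import Pool.Agent.H649.InducedPathMain

namespace Pool.Agent.Results.MP_0d366e_co.DiamPlusMin

open scoped BigOperators

/-- `path(G)`: the largest number of vertices of an induced path. -/
noncomputable def pathNum {V : Type*} (G : SimpleGraph V) : ℕ :=
  sSup {k : ℕ | Nonempty (SimpleGraph.pathGraph k ↪g G)}

/-- `l(v)`: the independence number of the subgraph induced on the open neighbourhood of `v`. -/
noncomputable def locInd {V : Type*} (G : SimpleGraph V) (v : V) : ℕ :=
  (G.induce (G.neighborSet v)).indepNum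

/-- `l(G)`: the average of `l(v)`. -/
noncomputable def avgInd {V : Type*} [Fintype V] (G : SimpleGraph V) : ℝ :=
  (∑ v, (locInd G v : ℝ)) / (Fintype.card V : ℝ)

/-- the eccentricity of `v` -/
noncomputable def ecc {V : Type*} [Fintype V] (G : SimpleGraph V) (v : V) : ℕ :=
  Finset.univ.sup (fun u => G.dist v u)

/-- the radius -/
noncomputable def rad {V : Type*} [Fintype V] (G : SimpleGraph V) : ℕ :=
  sInf (Set.range (ecc G))

/-- the diameter -/
noncomputable def diameter {V : Type*} [Fintype V] (G : SimpleGraph V) : ℕ :=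
  Finset.univ.sup (ecc G)

/-- `G` contains a 4-cycle as a (not necessarily induced) subgraph. -/
def HasC4 {V : Type*} (G : SimpleGraph V) : Prop :=
  ∃ a b c d : V, [a, b, c, d].Nodup ∧ G.Adj a b ∧ G.Adj b c ∧ G.Adj c d ∧ G.Adj d a

open Classical in
/-- `cC₄(G)` -/
noncomputable def cC4 {V : Type*} (G : SimpleGraph V) : ℕ := if HasC4 G then 0 else 1

theorem result {V : Type*} [Fintype V] (G : SimpleGraph V) (hG : G.Connected) :
    (¬ HasC4 G → ∀ L : ℕ, (∀ v, L ≤ locInd G v) → diameter G + L ≤ pathNum G) ∧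
    ((∀ v, ⌊avgInd G⌋ ≤ (locInd G v : ℤ)) →
      (rad G : ℝ) + (⌊avgInd G⌋ : ℝ) ^ (cC4 G) ≤ (pathNum G : ℝ)) := by
  classical
  have hne : Nonempty V := hG.nonempty
  -- from `IP` to `pathNum`
  have hbdd : BddAbove {k : ℕ | Nonempty (SimpleGraph.pathGraph k ↪g G)} := by
    refine ⟨Fintype.card V, ?_⟩
    rintro k ⟨e⟩
    simpa using Fintype.card_le_of_injective e e.injective
  have hIP : ∀ (f : ℕ → V) (k : ℕ), H649.InducedPath.IP G f k → k ≤ pathNum G := by
    intro f k hf
    refine le_csSup hbdd ⟨⟨⟨fun i => f i, ?_⟩, ?_⟩⟩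
    · intro i j hij
      exact Fin.ext (hf.1 i i.2 j j.2 hij)
    · intro i j
      simp only [SimpleGraph.pathGraph_adj]
      exact hf.2 i i.2 j j.2
  have hC : ¬ HasC4 G → H649.InducedPath.C4Free G := by
    intro h a b c d hac hbd h1 h2 h3 h4
    apply h
    refine ⟨a, b, c, d, ?_, h1, h2, h3, h4⟩
    simp [hac, hbd, h1.ne, h2.ne, h3.ne, h4.ne']
  have hLI : ∀ L : ℕ, (∀ v, L ≤ locInd G v) → H649.InducedPath.LocInd G L := by
    intro L hL v
    obtain ⟨s, hs⟩ := (G.induce (G.neighborSet v)).exists_isNIndepSet_indepNum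
    refine ⟨s.map (Function.Embedding.subtype _), ?_, ?_, ?_⟩
    · rw [Finset.card_map, hs.card_eq]
      exact hL v
    · intro w hw
      rw [Finset.mem_map] at hw
      obtain ⟨x, -, rfl⟩ := hw
      exact (x.2 : G.Adj v x).symm
    · intro w hw w' hw' hadj
      rw [Finset.mem_map] at hw hw'
      obtain ⟨x, hx, rfl⟩ := hw
      obtain ⟨x', hx', rfl⟩ := hw'
      have hxx : x ≠ x' := by
        rintro rfl
        exact G.irrefl hadj
      exact hs.isIndepSet hx hx' hxx hadj
  have key : ¬ HasC4 G → ∀ L : ℕ, (∀ v, L ≤ locInd G v) → ∀ u v, G.dist u v + L ≤ pathNum G := by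
    intro h L hL u v
    obtain ⟨f, k, hk, hf⟩ := H649.InducedPath.main hG (hC h) (hLI L hL) u v
    exact hk.trans (hIP f k hf)
  have hrad : ∃ u v, rad G ≤ G.dist u v := by
    obtain ⟨u⟩ := hne
    obtain ⟨v, -, hv⟩ := Finset.exists_mem_eq_sup (Finset.univ : Finset V) ⟨u, Finset.mem_univ u⟩
      (fun v => G.dist u v)
    refine ⟨u, v, ?_⟩
    rw [← hv]
    exact Nat.sInf_le ⟨u, rfl⟩
  refine ⟨?_, ?_⟩
  · intro h L hL
    obtain ⟨u, -, hu⟩ := Finset.exists_mem_eq_sup (Finset.univ : Finset V) Finset.univ_nonempty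
      (ecc G)
    obtain ⟨v, -, hv⟩ := Finset.exists_mem_eq_sup (Finset.univ : Finset V) Finset.univ_nonempty
      (fun v => G.dist u v)
    have h1 := key h L hL u v
    unfold diameter
    rw [hu]
    unfold ecc
    rw [hv]
    exact h1
  · intro hl
    obtain ⟨u, v, huv⟩ := hrad
    by_cases h : HasC4 G
    · obtain ⟨g, -, -, hg⟩ := H649.InducedPath.exists_geo hG u v
      have h1 := hIP g _ (H649.InducedPath.geo_IP hg)
      have e : cC4 G = 0 := by simp [cC4, h]
      rw [e, pow_zero]
      have : rad G + 1 ≤ pathNum G := by omega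
      exact_mod_cast this
    · have e : cC4 G = 1 := by simp [cC4, h]
      rw [e, pow_one]
      have hnn : 0 ≤ avgInd G := by
        unfold avgInd
        positivity
      obtain ⟨L, hLe⟩ := Int.eq_ofNat_of_zero_le (Int.floor_nonneg.2 hnn)
      rw [hLe] at hl ⊢
      have h1 := key h L (fun v => by exact_mod_cast hl v) u v
      have : rad G + L ≤ pathNum G := by omega
      exact_mod_cast this

end Pool.Agent.Results.MP_0d366e_co.DiamPlusMin
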